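import Pool.Agent.Y755.MK.Stm

/-!
# Project MK (helper755), job MK-MKV (helper732): the Markov property
-/

set_option autoImplicit false

open MeasureTheory ProbabilityTheory

open scoped Classical

namespace Pool.Agent.Y732.MK.MKV

open Pool.Agent.Y755.MK

noncomputable section

/-- iterated integrals with a terminal function -/
def Ge : List (Set S0) → (S0 → ENNReal) → S0 → ENNReal
  | [], h => h
  | B :: l, h => fun x => ∫⁻ x' in B, ENNReal.ofReal (ps x x') * Ge l h x' ∂mS

/-- a window -/
def W (s : ℤ) (A : Set S0) (l : List (Set S0)) : Set (ℤ → S0) :=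
  {ω | ω s ∈ A ∧ ∀ i : Fin l.length, ω (s + 1 + (i : ℕ)) ∈ l.get i}

theorem Ge_append (l l' : List (Set S0)) (h : S0 → ENNReal) :
    Ge (l ++ l') h = Ge l (Ge l' h) := by
  induction l with
  | nil => rfl
  | cons B l ih =>
    funext x
    simp only [List.cons_append, Ge, ih]

theorem Ge_meas [IsProbabilityMeasure mS] (hps : Measurable fun q : S0 × S0 => ps q.1 q.2)
    (l : List (Set S0)) {h : S0 → ENNReal} (hh : Measurable h) : Measurable (Ge l h) := by
  induction l with
  | nil => exact hh
  | cons B l ih =>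
    have h1 : Measurable fun q : S0 × S0 => ENNReal.ofReal (ps q.1 q.2) * Ge l h q.2 :=
      (hps.ennreal_ofReal).mul (ih.comp measurable_snd)
    exact h1.lintegral_prod_right' (ν := mS.restrict B)

theorem ps_meas (hps : Measurable fun q : S0 × S0 => ps q.1 q.2) (x : S0) :
    Measurable fun x' => ps x x' :=
  hps.comp (measurable_const.prodMk measurable_id)

theorem Ge_mul [IsProbabilityMeasure mS] (hps : Measurable fun q : S0 × S0 => ps q.1 q.2)
    (l : List (Set S0)) (c : ENNReal) {h : S0 → ENNReal} (hh : Measurable h) (x : S0) :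
    Ge l (fun y => c * h y) x = c * Ge l h x := by
  induction l generalizing x with
  | nil => rfl
  | cons B l ih =>
    simp only [Ge, ih]
    rw [← lintegral_const_mul]
    · refine lintegral_congr fun y => ?_
      ring
    · exact ((ps_meas hps x).ennreal_ofReal).mul (Ge_meas hps l hh)

theorem Ge_add [IsProbabilityMeasure mS] (hps : Measurable fun q : S0 × S0 => ps q.1 q.2)
    (l : List (Set S0)) {h k : S0 → ENNReal} (hh : Measurable h) (_ : Measurable k) (x : S0) :
    Ge l (fun y => h y + k y) x = Ge l h x + Ge l k x := by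
  induction l generalizing x with
  | nil => rfl
  | cons B l ih =>
    simp only [Ge, ih]
    rw [← lintegral_add_left]
    · refine lintegral_congr fun y => ?_
      ring
    · exact ((ps_meas hps x).ennreal_ofReal).mul (Ge_meas hps l hh)

theorem Ge_mono (l : List (Set S0)) {h k : S0 → ENNReal} (hk : ∀ x, h x ≤ k x) (x : S0) :
    Ge l h x ≤ Ge l k x := by
  induction l generalizing x with
  | nil => exact hk x
  | cons B l ih =>
    simp only [Ge]
    exact lintegral_mono fun y => mul_le_mul_right (ih y) _

theorem Ge_sup [IsProbabilityMeasure mS] (hps : Measurable fun q : S0 × S0 => ps q.1 q.2)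
    (l : List (Set S0)) {h : ℕ → S0 → ENNReal} (hh : ∀ n, Measurable (h n)) (hm : Monotone h)
    (x : S0) : Ge l (fun y => ⨆ n, h n y) x = ⨆ n, Ge l (h n) x := by
  induction l generalizing x with
  | nil => rfl
  | cons B l ih =>
    simp only [Ge, ih]
    rw [← lintegral_iSup]
    · refine lintegral_congr fun y => ?_
      rw [ENNReal.mul_iSup]
    · intro n
      exact ((ps_meas hps x).ennreal_ofReal).mul (Ge_meas hps l (hh n))
    · intro i j hij y
      exact mul_le_mul_right (Ge_mono l (fun z => hm hij z) y) _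

theorem Gl_all (hPS : S_PS) (l : List (Set S0)) :
    Measurable (Gl l) ∧ (∀ x, 0 ≤ Gl l x ∧ Gl l x ≤ 1) ∧
      ∀ x, Ge l (fun _ => 1) x = ENNReal.ofReal (Gl l x) := by
  obtain ⟨hprob, hps, hb, hint, -, -, -⟩ := hPS
  induction l with
  | nil =>
    refine ⟨measurable_const, fun x => ⟨zero_le_one, le_refl _⟩, fun x => ?_⟩
    simp [Ge, Gl]
  | cons B l ih =>
    obtain ⟨im, ib, ie⟩ := ih
    have hi1 : ∀ x, Integrable (fun x' => ps x x') mS := fun x =>
      Integrable.of_bound (ps_meas hps x).aestronglyMeasurable 3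
        (Filter.Eventually.of_forall fun y => by
          rw [Real.norm_of_nonneg (hb x y).1]; exact (hb x y).2)
    have hi2 : ∀ x, Integrable (fun x' => ps x x' * Gl l x') mS := fun x =>
      Integrable.of_bound ((ps_meas hps x).mul im).aestronglyMeasurable 3
        (Filter.Eventually.of_forall fun y => by
          rw [Real.norm_of_nonneg (mul_nonneg (hb x y).1 (ib y).1)]
          calc ps x y * Gl l y ≤ ps x y * 1 :=
                mul_le_mul_of_nonneg_left (ib y).2 (hb x y).1
            _ ≤ 3 := by rw [mul_one]; exact (hb x y).2)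
    refine ⟨?_, fun x => ⟨?_, ?_⟩, fun x => ?_⟩
    · have h1 : Measurable fun q : S0 × S0 => ps q.1 q.2 * Gl l q.2 :=
        hps.mul (im.comp measurable_snd)
      exact (h1.stronglyMeasurable.integral_prod_right' (ν := mS.restrict B)).measurable
    · exact integral_nonneg fun y => mul_nonneg (hb x y).1 (ib y).1
    · calc Gl (B :: l) x = ∫ x' in B, ps x x' * Gl l x' ∂mS := rfl
        _ ≤ ∫ x' in B, ps x x' ∂mS := by
            refine integral_mono (hi2 x).integrableOn (hi1 x).integrableOn fun y => ?_
            calc ps x y * Gl l y ≤ ps x y * 1 :=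
                mul_le_mul_of_nonneg_left (ib y).2 (hb x y).1
              _ = ps x y := mul_one _
        _ ≤ ∫ x', ps x x' ∂mS :=
            setIntegral_le_integral (hi1 x) (Filter.Eventually.of_forall fun y => (hb x y).1)
        _ = 1 := hint x
    · have h2 : Gl (B :: l) x = ∫ x' in B, ps x x' * Gl l x' ∂mS := rfl
      rw [h2, ofReal_integral_eq_lintegral_ofReal (hi2 x).integrableOn
        (Filter.Eventually.of_forall fun y => mul_nonneg (hb x y).1 (ib y).1)]
      simp only [Ge, ie]
      refine lintegral_congr fun y => ?_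
      rw [ENNReal.ofReal_mul (hb x y).1]

theorem law_e (hPS : S_PS) {μ : Measure (ℤ → S0)} (hL : Law μ) (s : ℤ) {A : Set S0}
    {l : List (Set S0)} (hA : MeasurableSet A) (hl : ∀ B ∈ l, MeasurableSet B) :
    μ (W s A l) = ∫⁻ x in A, Ge l (fun _ => 1) x ∂mS := by
  have := hPS.1
  have := hL.1
  have h1 := hL.2 s A l hA hl
  obtain ⟨hm, hb, he⟩ := Gl_all hPS l
  have hi : Integrable (Gl l) mS := Integrable.of_bound hm.aestronglyMeasurable 1
    (Filter.Eventually.of_forall fun y => by
      rw [Real.norm_of_nonneg (hb y).1]; exact (hb y).2)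
  have h2 : μ (W s A l) = ENNReal.ofReal (∫ x in A, Gl l x ∂mS) := by
    rw [← h1, ofReal_measureReal]
    rfl
  rw [h2, ofReal_integral_eq_lintegral_ofReal hi.integrableOn
    (Filter.Eventually.of_forall fun y => (hb y).1)]
  refine lintegral_congr fun y => ?_
  rw [he]

theorem all_append (ω : ℤ → S0) (s : ℤ) (l : List (Set S0)) (b : Set S0) :
    (∀ i : Fin (l ++ [b]).length, ω (s + 1 + (i : ℕ)) ∈ (l ++ [b]).get i) ↔
      (∀ i : Fin l.length, ω (s + 1 + (i : ℕ)) ∈ l.get i) ∧ ω (s + 1 + l.length) ∈ b := by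
  constructor
  · intro h
    refine ⟨fun i => ?_, ?_⟩
    · have h1 := h ⟨i, by simp only [List.length_append, List.length_cons, List.length_nil]; omega⟩
      simpa [List.getElem_append_left] using h1
    · have h1 := h ⟨l.length, by simp⟩
      simpa using h1
  · rintro ⟨h1, h2⟩ ⟨i, hi⟩
    simp only [List.length_append, List.length_cons, List.length_nil] at hi
    by_cases h : i < l.length
    · have h3 := h1 ⟨i, h⟩
      simpa [List.getElem_append_left h] using h3
    · have h4 : i = l.length := by omega
      subst h4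
      simpa using h2

theorem W_append (s : ℤ) (A : Set S0) (l : List (Set S0)) (b : Set S0) :
    W s A (l ++ [b]) = W s A l ∩ {ω | ω (s + 1 + l.length) ∈ b} := by
  ext ω
  simp only [W, Set.mem_ofPred_eq, Set.mem_inter_iff, all_append]
  tauto

theorem W_meas (s : ℤ) {A : Set S0} {l : List (Set S0)} (hA : MeasurableSet A)
    (hl : ∀ B ∈ l, MeasurableSet B) : MeasurableSet (W s A l) := by
  have h1 : W s A l = (fun ω : ℤ → S0 => ω s) ⁻¹' A ∩
      ⋂ i : Fin l.length, (fun ω : ℤ → S0 => ω (s + 1 + (i : ℕ))) ⁻¹' (l.get i) := by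
    ext ω
    simp [W]
  rw [h1]
  refine (measurable_pi_apply s hA).inter (MeasurableSet.iInter fun i => ?_)
  exact measurable_pi_apply _ (hl _ (List.get_mem _ _))

theorem E_ind (hPS : S_PS) {μ : Measure (ℤ → S0)} (hL : Law μ) (s : ℤ) {A : Set S0}
    {l : List (Set S0)} (hA : MeasurableSet A) (hl : ∀ B ∈ l, MeasurableSet B) {D : Set S0}
    (hD : MeasurableSet D) :
    μ (W s A l ∩ {ω | ω (s + l.length) ∈ D}) =
      ∫⁻ x in A, Ge l (D.indicator fun _ => 1) x ∂mS := by
  rcases List.eq_nil_or_concat l with rfl | ⟨L, b, rfl⟩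
  · have h1 : W s A [] ∩ {ω | ω (s + ([] : List (Set S0)).length) ∈ D} = W s (A ∩ D) [] := by
      ext ω
      simp [W]
    rw [h1, law_e hPS hL s (hA.inter hD) (by simp)]
    simp only [Ge]
    rw [lintegral_indicator hD, Measure.restrict_restrict hD, Set.inter_comm]
  · rw [List.concat_eq_append] at hl ⊢
    have h1 : W s A (L ++ [b]) ∩ {ω | ω (s + (L ++ [b]).length) ∈ D} = W s A (L ++ [b ∩ D]) := by
      rw [W_append, W_append]
      ext ω
      have h2 : s + ((L ++ [b]).length : ℕ) = s + 1 + (L.length : ℕ) := by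
        simp only [List.length_append, List.length_cons, List.length_nil]
        push_cast
        ring
      simp only [Set.mem_inter_iff, Set.mem_ofPred_eq, h2]
      tauto
    have hb : MeasurableSet b := hl b (by simp)
    rw [h1, law_e hPS hL s hA ?_]
    · refine lintegral_congr fun x => ?_
      rw [Ge_append, Ge_append]
      congr 1
      funext y
      simp only [Ge]
      have h3 : ∀ z : S0, ENNReal.ofReal (ps y z) * D.indicator (fun _ => (1 : ENNReal)) z =
          D.indicator (fun z => ENNReal.ofReal (ps y z) * 1) z := by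
        intro z
        by_cases hz : z ∈ D
        · simp [hz]
        · simp [hz]
      simp only [h3]
      rw [lintegral_indicator hD, Measure.restrict_restrict hD, Set.inter_comm]
    · intro B hB
      rw [List.mem_append, List.mem_singleton] at hB
      rcases hB with hB | rfl
      · exact hl B (List.mem_append_left _ hB)
      · exact hb.inter hD

theorem E_all (hPS : S_PS) {μ : Measure (ℤ → S0)} (hL : Law μ) (s : ℤ) {A : Set S0}
    {l : List (Set S0)} (hA : MeasurableSet A) (hl : ∀ B ∈ l, MeasurableSet B)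
    {h : S0 → ENNReal} (hh : Measurable h) :
    ∫⁻ ω in W s A l, h (ω (s + l.length)) ∂μ = ∫⁻ x in A, Ge l h x ∂mS := by
  have := hPS.1
  have := hL.1
  have hps := hPS.2.1
  have hev : Measurable fun ω : ℤ → S0 => ω (s + l.length) := measurable_pi_apply _
  refine Measurable.ennreal_induction (motive := fun h : S0 → ENNReal =>
    ∫⁻ ω in W s A l, h (ω (s + l.length)) ∂μ = ∫⁻ x in A, Ge l h x ∂mS) ?_ ?_ ?_ hh
  · intro c D hD
    have h1 : ∀ y : S0, D.indicator (fun _ => c) y = c * D.indicator (fun _ => 1) y := by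
      intro y
      by_cases hy : y ∈ D
      · simp [hy]
      · simp [hy]
    have h2 : (D.indicator fun _ => c) = fun y => c * D.indicator (fun _ => (1 : ENNReal)) y :=
      funext h1
    have hm1 : Measurable (D.indicator fun _ => (1 : ENNReal)) :=
      measurable_const.indicator hD
    have hmc : Measurable fun ω : ℤ → S0 =>
        D.indicator (fun _ => (1 : ENNReal)) (ω (s + l.length)) := hm1.comp hev
    rw [h2]
    simp only [Ge_mul hps l c hm1]
    rw [lintegral_const_mul _ (Ge_meas hps l hm1), lintegral_const_mul _ hmc,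
      ← E_ind hPS hL s hA hl hD]
    congr 1
    have h3 : ∀ ω : ℤ → S0, D.indicator (fun _ => (1 : ENNReal)) (ω (s + l.length)) =
        ({ω : ℤ → S0 | ω (s + l.length) ∈ D}).indicator (fun _ => (1 : ENNReal)) ω := by
      intro ω
      by_cases hy : ω (s + l.length) ∈ D
      · simp [hy]
      · simp [hy]
    have h4 : MeasurableSet {ω : ℤ → S0 | ω (s + l.length) ∈ D} := hev hD
    simp only [h3]
    rw [lintegral_indicator h4, Measure.restrict_restrict h4, lintegral_one,
      Measure.restrict_apply_univ, Set.inter_comm]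
  · intro f g _ hf hg ihf ihg
    have e1 : ∀ ω : ℤ → S0, (f + g) (ω (s + l.length)) =
      f (ω (s + l.length)) + g (ω (s + l.length)) := fun _ => rfl
    have e2 : ∀ x : S0, Ge l (f + g) x = Ge l f x + Ge l g x := fun x => Ge_add hps l hf hg x
    have hmc : Measurable fun ω : ℤ → S0 => f (ω (s + l.length)) := hf.comp hev
    simp only [e1, e2]
    rw [lintegral_add_left hmc, lintegral_add_left (Ge_meas hps l hf), ihf, ihg]
  · intro f hf hm ih
    have hmc : ∀ n, Measurable fun ω : ℤ → S0 => f n (ω (s + l.length)) :=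
      fun n => (hf n).comp hev
    simp only [Ge_sup hps l hf hm]
    rw [lintegral_iSup (fun n => Ge_meas hps l (hf n)) (fun i j hij x =>
      Ge_mono l (fun z => hm hij z) x), lintegral_iSup hmc (fun i j hij ω => hm hij _)]
    exact iSup_congr ih

/-- the identity for windows -/
theorem win (hPS : S_PS) {μ : Measure (ℤ → S0)} (hL : Law μ) (s : ℤ) {A0 : Set S0}
    {l : List (Set S0)} (hA0 : MeasurableSet A0) (hl : ∀ B ∈ l, MeasurableSet B) {A : Set S0}
    (hA : MeasurableSet A) :
    μ (W s A0 l ∩ {ω | ω (s + l.length + 1) ∈ A}) =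
      ∫⁻ ω in W s A0 l, ENNReal.ofReal (Gl [A] (ω (s + l.length))) ∂μ := by
  have := hPS.1
  have h1 : W s A0 l ∩ {ω | ω (s + l.length + 1) ∈ A} = W s A0 (l ++ [A]) := by
    rw [W_append]
    have h2 : s + (l.length : ℤ) + 1 = s + 1 + (l.length : ℤ) := by ring
    rw [h2]
  have h3 : ∀ x, ENNReal.ofReal (Gl [A] x) = Ge [A] (fun _ => 1) x := fun x =>
    ((Gl_all hPS [A]).2.2 x).symm
  simp only [h3]
  rw [h1, law_e hPS hL s hA0 ?_, E_all hPS hL s hA0 hl (Ge_meas hPS.2.1 [A] measurable_const),
    ← Ge_append]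
  intro B hB
  rw [List.mem_append, List.mem_singleton] at hB
  rcases hB with hB | rfl
  · exact hl B hB
  · exact hA

/-- finite conditions on the past are windows -/
theorem cyl (n : ℤ) (t : Finset ℤ) (ht : ∀ x ∈ t, x ≤ n) (B : ℤ → Set S0)
    (hB : ∀ x ∈ t, MeasurableSet (B x)) : ∃ (s : ℤ) (A0 : Set S0) (l : List (Set S0)),
    s + l.length = n ∧ MeasurableSet A0 ∧ (∀ D ∈ l, MeasurableSet D) ∧
      (⋂ x ∈ t, (fun ω : ℤ → S0 => ω x) ⁻¹' B x) = W s A0 l := by
  set N : ℕ := t.sup fun x => (n - x).toNat with hN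
  set B' : ℤ → Set S0 := fun x => if x ∈ t then B x else Set.univ with hB'
  have hm : ∀ x, MeasurableSet (B' x) := by
    intro x
    simp only [hB']
    split_ifs with h
    · exact hB x h
    · exact MeasurableSet.univ
  refine ⟨n - N, B' (n - N), List.ofFn fun i : Fin N => B' (n - N + 1 + (i : ℕ)), ?_, hm _, ?_, ?_⟩
  · simp
  · intro D hD
    rw [List.mem_ofFn] at hD
    obtain ⟨i, rfl⟩ := hD
    exact hm _
  · ext ω
    simp only [Set.mem_iInter, Set.mem_preimage, W, Set.mem_ofPred_eq]
    constructor
    · intro h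
      have h' : ∀ x, ω x ∈ B' x := by
        intro x
        simp only [hB']
        split_ifs with hx
        · exact h x hx
        · trivial
      refine ⟨h' _, fun i => ?_⟩
      simp only [List.get_ofFn]
      exact h' _
    · rintro ⟨h1, h2⟩ x hx
      have h3 : (n - x).toNat ≤ N := Finset.le_sup (f := fun x => (n - x).toNat) hx
      have h4 := ht x hx
      have h5 : ω x ∈ B' x := by
        by_cases h6 : x = n - N
        · rw [h6]; exact h1
        · have h7 : (x - (n - N + 1)).toNat < N := by omega
          have h8 := h2 ⟨(x - (n - N + 1)).toNat, by simpa using h7⟩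
          simp only [List.get_ofFn] at h8
          have h9 : n - (N : ℤ) + 1 + (((x - (n - N + 1)).toNat : ℕ) : ℤ) = x := by omega
          simp only [Fin.val_cast, h9] at h8
          exact h8
      simpa [hB', hx] using h5

theorem t_MKV : S_MKV := by
  intro hPS μ hL n A hA
  have := hPS.1
  have := hL.1
  obtain ⟨gm, gb, -⟩ := Gl_all hPS [A]
  set E : Set (ℤ → S0) := (fun ω : ℤ → S0 => ω (n + 1)) ⁻¹' A with hE
  have hEm : MeasurableSet E := measurable_pi_apply _ hA
  set g : (ℤ → S0) → ℝ := fun ω => Gl [A] (ω n) with hg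
  have hgm : Measurable g := gm.comp (measurable_pi_apply n)
  have hgi : Integrable g μ := Integrable.of_bound hgm.aestronglyMeasurable 1
    (Filter.Eventually.of_forall fun ω => by
      rw [Real.norm_of_nonneg (gb _).1]; exact (gb _).2)
  set F : MeasurableSpace (ℤ → S0) := ⨆ (m : ℤ) (_ : m ≤ n),
    MeasurableSpace.comap (fun ω : ℤ → S0 => ω m) inferInstance with hF
  set F1 : MeasurableSpace (ℤ → S0) :=
    MeasurableSpace.comap (fun ω : ℤ → S0 => ω n) inferInstance with hF1
  have hFle : F ≤ (MeasurableSpace.pi : MeasurableSpace (ℤ → S0)) :=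
    iSup₂_le fun m _ => (measurable_pi_apply m).comap_le
  have hF1F : F1 ≤ F := le_iSup₂_of_le n (le_refl n) (le_refl _)
  have key : ∀ s, MeasurableSet[F] s → (μ.restrict E) s =
      (μ.withDensity fun ω => ENNReal.ofReal (g ω)) s := by
    have : IsFiniteMeasure (μ.restrict E) := inferInstance
    intro s hs
    have hgen : F = MeasurableSpace.generateFrom (piiUnionInter (fun m : ℤ =>
        {s | MeasurableSet[MeasurableSpace.comap (fun ω : ℤ → S0 => ω m) inferInstance] s})
        (Set.Iic n)) :=
      (generateFrom_piiUnionInter_measurableSet (fun m : ℤ =>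
        MeasurableSpace.comap (fun ω : ℤ → S0 => ω m) inferInstance) (Set.Iic n)).symm
    have hpi : IsPiSystem (piiUnionInter (fun m : ℤ =>
        {s | MeasurableSet[MeasurableSpace.comap (fun ω : ℤ → S0 => ω m) inferInstance] s})
        (Set.Iic n)) :=
      isPiSystem_piiUnionInter _ (fun m => @MeasurableSpace.isPiSystem_measurableSet _
        (MeasurableSpace.comap (fun ω : ℤ → S0 => ω m) inferInstance)) _
    have hwin : ∀ s ∈ piiUnionInter (fun m : ℤ =>
        {s | MeasurableSet[MeasurableSpace.comap (fun ω : ℤ → S0 => ω m) inferInstance] s})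
        (Set.Iic n), (μ.restrict E) s = (μ.withDensity fun ω => ENNReal.ofReal (g ω)) s := by
      rintro s ⟨t, ht, f, hf, rfl⟩
      have hch : ∀ x ∈ t, ∃ B : Set S0, MeasurableSet B ∧ (fun ω : ℤ → S0 => ω x) ⁻¹' B = f x :=
        fun x hx => hf x hx
      choose! B hB1 hB2 using hch
      obtain ⟨s, A0, l, hs, hA0, hl, hW⟩ := cyl n t (fun x hx => ht hx) B hB1
      have h1 : (⋂ x ∈ t, f x) = W s A0 l := by
        rw [← hW]
        refine Set.iInter₂_congr fun x hx => ?_
        rw [hB2 x hx]
      rw [h1, Measure.restrict_apply (W_meas s hA0 hl), withDensity_apply _ (W_meas s hA0 hl)]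
      have h2 := win hPS hL s hA0 hl hA
      rw [hs] at h2
      exact h2
    refine ext_on_measurableSpace_of_generate_finite _ _ hwin hFle hgen hpi ?_ hs
    refine hwin _ ⟨∅, by simp, fun _ => Set.univ, by simp, by simp⟩
  have key2 : ∀ s, MeasurableSet[F] s → ∫ ω in s, g ω ∂μ =
      ∫ ω in s, E.indicator (fun _ => (1 : ℝ)) ω ∂μ := by
    intro s hs
    have hs0 : @MeasurableSet (ℤ → S0) MeasurableSpace.pi s := hFle s hs
    have h1 := key s hs
    rw [Measure.restrict_apply hs0, withDensity_apply _ hs0,
      ← ofReal_integral_eq_lintegral_ofReal hgi.integrableOn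
        (Filter.Eventually.of_forall fun ω => (gb _).1)] at h1
    rw [integral_indicator hEm, Measure.restrict_restrict hEm, setIntegral_const, smul_eq_mul,
      mul_one, Set.inter_comm, Measure.real, h1, ENNReal.toReal_ofReal]
    exact integral_nonneg fun ω => (gb _).1
  have hfi : Integrable (E.indicator fun _ => (1 : ℝ)) μ :=
    (integrable_const (1 : ℝ)).indicator hEm
  have hgF1 : StronglyMeasurable[F1] g := by
    have h1 : Measurable[F1] g := gm.comp (comap_measurable fun ω : ℤ → S0 => ω n)
    exact h1.stronglyMeasurable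
  have a1 : g =ᵐ[μ] μ[E.indicator (fun _ => (1 : ℝ))|F] :=
    ae_eq_condExp_of_forall_setIntegral_eq hFle hfi (fun s _ _ => hgi.integrableOn)
      (fun s hs _ => key2 s hs) (hgF1.mono hF1F).aestronglyMeasurable
  have a2 : g =ᵐ[μ] μ[E.indicator (fun _ => (1 : ℝ))|F1] :=
    ae_eq_condExp_of_forall_setIntegral_eq (hF1F.trans hFle) hfi (fun s _ _ => hgi.integrableOn)
      (fun s hs _ => key2 s (hF1F s hs)) hgF1.aestronglyMeasurable
  exact a1.symm.trans a2

end

end Pool.Agent.Y732.MK.MKV
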